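import Pool.Agent.W580.SH.Final
import Pool.Agent.W212.SH.Low

/-! MP_74dbbd_co, Q1: the refined shifted Heller constant is smaller than the Heller constant. -/

namespace Pool.Agent.Results.MP_74dbbd_co.RefinedHeller

/-- every square submatrix of every size has determinant in `[-1,1]` -/
def Totally1Submodular {m n : ℕ} (M : Matrix (Fin m) (Fin n) ℝ) : Prop :=
  ∀ (k : ℕ) (r : Fin k → Fin m) (c : Fin k → Fin n), |(M.submatrix r c).det| ≤ 1

/-- the numbers `n` of columns of admissible pairs `(t, A)` with `t` in `(1/δ) ℤ^m` -/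
def RefinedSizes (δ m : ℕ) : Set ℕ :=
  {n | ∃ (t : Fin m → ℝ) (A : Matrix (Fin m) (Fin n) ℝ),
    (∀ i, 0 ≤ t i ∧ t i < 1) ∧ (∀ i, ∃ z : ℤ, t i = z / δ) ∧ t ≠ 0 ∧
    (∀ i j, A i j = -1 ∨ A i j = 0 ∨ A i j = 1) ∧ Function.Injective A.transpose ∧
    Totally1Submodular (Matrix.of fun i j => t i + A i j)}

/-- the refined shifted Heller constant `h_s^δ(m)` -/
noncomputable def refinedShiftedHeller (δ m : ℕ) : ℕ := sSup (RefinedSizes δ m)

/-- the numbers `n` of columns of integer matrices with `m` rows, pairwise distinct columns, and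
largest absolute value of an `m × m` minor equal to `Δ` -/
def HellerSizes (Δ m : ℕ) : Set ℕ :=
  {n | ∃ A : Matrix (Fin m) (Fin n) ℤ, Function.Injective A.transpose ∧
    (∃ s : Fin m → Fin n, |(A.submatrix id s).det| = Δ) ∧
    ∀ s : Fin m → Fin n, |(A.submatrix id s).det| ≤ Δ}

/-- `h(Δ,m)` -/
noncomputable def hellerConst (Δ m : ℕ) : ℕ := sSup (HellerSizes Δ m)

theorem sizes_one (m : ℕ) : HellerSizes 1 m = Pool.Agent.W580.SH.HellerSizes m := by
  ext n
  constructor
  · rintro ⟨A, h1, ⟨s, hs⟩, h3⟩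
    refine ⟨A, h1, ⟨s, ?_⟩, fun s => by simpa using h3 s⟩
    intro h0
    rw [h0] at hs
    simp at hs
  · rintro ⟨A, h1, ⟨s, hs⟩, h3⟩
    refine ⟨A, h1, ⟨s, ?_⟩, fun s => by simpa using h3 s⟩
    have h4 := h3 s
    have h5 : 0 < |(A.submatrix id s).det| := abs_pos.2 hs
    push_cast
    omega

theorem refined_sub (δ m : ℕ) : RefinedSizes δ m ⊆ Pool.Agent.W580.SH.ShiftedSizes m := by
  rintro n ⟨t, A, h1, -, h2, h3, h4, h5⟩
  exact ⟨t, A, h1, h2, h3, h4, h5⟩

/-- For all `m ≥ 1` and `δ ≥ 2` the maxima defining `h_s^δ(m)` and `h(1,m)` exist,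
`h(1,m) = m^2+m+1` (Heller), and `h_s^δ(m) ≤ m^2+m < h(1,m)`. -/
theorem result : ∀ m δ : ℕ, 1 ≤ m → 2 ≤ δ →
    IsGreatest (RefinedSizes δ m) (refinedShiftedHeller δ m) ∧
    IsGreatest (HellerSizes 1 m) (hellerConst 1 m) ∧
    hellerConst 1 m = m ^ 2 + m + 1 ∧
    refinedShiftedHeller δ m ≤ m ^ 2 + m ∧
    refinedShiftedHeller δ m < hellerConst 1 m := by
  intro m δ hm hδ
  have hub : ∀ n ∈ RefinedSizes δ m, n ≤ m ^ 2 + m := fun n hn =>
    Pool.Agent.W580.SH.shifted_le m n (refined_sub δ m hn)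
  have h0 : 0 ∈ RefinedSizes δ m := by
    refine ⟨fun _ => 1 / δ, Matrix.of fun _ j => Fin.elim0 j, ?_, ?_, ?_, ?_, ?_, ?_⟩
    · intro i
      have h2 : (2 : ℝ) ≤ δ := by exact_mod_cast hδ
      constructor
      · positivity
      · rw [div_lt_one (by linarith)]
        linarith
    · intro i
      exact ⟨1, by norm_num⟩
    · intro h
      have h2 := congrFun h ⟨0, hm⟩
      have h3 : (0 : ℝ) < 1 / δ := by positivity
      simp only [Pi.zero_apply] at h2
      linarith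
    · intro i j
      exact Fin.elim0 j
    · intro j
      exact Fin.elim0 j
    · intro k r c
      rcases Nat.eq_zero_or_pos k with h | h
      · subst h
        simp
      · exact Fin.elim0 (c ⟨0, h⟩)
  have hg : IsGreatest (RefinedSizes δ m) (refinedShiftedHeller δ m) :=
    ⟨Nat.sSup_mem ⟨0, h0⟩ ⟨_, hub⟩, fun n hn => le_csSup ⟨_, hub⟩ hn⟩
  obtain ⟨-, hH, hv, -, -⟩ := Pool.Agent.W580.SH.all Pool.Agent.W212.SH.main m hm
  have he : hellerConst 1 m = Pool.Agent.W580.SH.hellerConst m := by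
    unfold hellerConst Pool.Agent.W580.SH.hellerConst
    rw [sizes_one]
  refine ⟨hg, ?_, ?_, hub _ hg.1, ?_⟩
  · rw [sizes_one, he]
    exact hH
  · rw [he]
    exact hv
  · rw [he, hv]
    have := hub _ hg.1
    omega

end Pool.Agent.Results.MP_74dbbd_co.RefinedHeller
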